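import Pool.Agent.Y434.SD.Main

/-!
For every rank `m ≥ 3` and every corank `n ≥ 2`, and for `m = n = 2`, there is a smooth bracket
generating structure of rank `m` on `ℝᵐ × ℝⁿ` whose endpoint map from the origin has no regular
value.
-/

namespace Pool.Agent.Results.MP_77ffad_gt.AllRanksCoranks

open scoped ContDiff
open Pool.Agent.Results.MP_77ffad_gt.NoRegularValue (hframe IsIteratedBracket BracketGenerating
  leb Control IsTrajectory IsCriticalAt IsSingularCurve)

theorem result (m n : ℕ) (hm : 2 ≤ m) (hn : 2 ≤ n) (hmn : 3 ≤ m ∨ n = 2) :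
    ∃ X : Fin m → (Fin m → ℝ) × (Fin n → ℝ) → (Fin m → ℝ) × (Fin n → ℝ),
      (∀ i, ContDiff ℝ ∞ (X i)) ∧ (∀ q, LinearIndependent ℝ fun i => X i q) ∧
      BracketGenerating X ∧
      ∀ q, ∃ γ : ℝ → (Fin m → ℝ) × (Fin n → ℝ), IsSingularCurve X γ ∧ γ 0 = 0 ∧ γ 1 = q := by
  by_cases h3 : 3 ≤ m
  · obtain ⟨k, rfl⟩ : ∃ k, m = 2 + (k + 1) := ⟨m - 3, by omega⟩
    obtain ⟨c, rfl⟩ : ∃ c, n = 2 + c := ⟨n - 2, by omega⟩
    exact ⟨hframe (Y434.SD.AA (k := k) (c := c)),
      NoRegularValue.hframe_smooth Y434.SD.contDiff_AA, Y434.SD.linearIndependent_AA,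
      Y434.SD.generating, Y434.SD.all_singular⟩
  · obtain rfl : m = 2 := by omega
    obtain rfl : n = 2 := by omega
    exact ⟨hframe H521R3.Sard.A, NoRegularValue.hframe_smooth H521R3.Sard.contDiff_A,
      H521R3.Sard.linearIndependent_hframe, H521R3.Sard.bracketGenerating,
      H521R3.Sard.exists_singular⟩

end Pool.Agent.Results.MP_77ffad_gt.AllRanksCoranks
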